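import Pool.Agent.helper54.V3.SpecE

set_option autoImplicit false

open Complex Metric Set Filter Topology MeasureTheory

noncomputable section

namespace V3

theorem PSL_measB (P : Set ℂ) (B : ℂ → ℂ) (hP : P.Countable) (hB : DifferentiableOn ℂ B Pᶜ) :
    Measurable B := by
  classical
  have h1 : Measurable (Pᶜ.piecewise B (fun _ => (0 : ℂ))) :=
    ContinuousOn.measurable_piecewise hB.continuousOn continuousOn_const hP.measurableSet.compl
  refine h1.measurable_of_countable_ne (hP.mono ?_)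
  intro x hx
  by_contra hxP
  exact hx (Set.piecewise_eq_of_mem _ _ _ hxP)

theorem PSL_measEn (θ : ℂ) (B q : ℂ → ℂ) (hB : Measurable B) (hq : Measurable q) :
    Measurable (En θ B q) := by
  unfold En
  exact (hq.norm).sub (Complex.measurable_re.comp ((measurable_const.mul hq).mul
    ((Complex.measurable_ofReal.comp hB.norm).div hB)))

theorem PSL_En_bd (θ : ℂ) (hθ : ‖θ‖ = 1) (B q : ℂ → ℂ) (x : ℂ) :
    0 ≤ En θ B q x ∧ En θ B q x ≤ 2 * ‖q x‖ := by
  have h1 : ‖(((‖B x‖ : ℝ) : ℂ) / B x)‖ ≤ 1 := by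
    rw [norm_div, Complex.norm_real, norm_norm]
    exact div_self_le_one _
  have h2 : ‖θ * q x * (((‖B x‖ : ℝ) : ℂ) / B x)‖ ≤ ‖q x‖ := by
    rw [norm_mul, norm_mul, hθ, one_mul]
    calc ‖q x‖ * ‖(((‖B x‖ : ℝ) : ℂ) / B x)‖ ≤ ‖q x‖ * 1 :=
          mul_le_mul_of_nonneg_left h1 (norm_nonneg _)
      _ = ‖q x‖ := mul_one _
  have h3 := Complex.abs_re_le_norm (θ * q x * (((‖B x‖ : ℝ) : ℂ) / B x))
  have h4 := abs_le.mp (h3.trans h2)
  unfold En
  constructor
  · linarith [h4.2]
  · linarith [h4.1]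

/-- Module PSL: slices of the energy. -/
theorem PSL : PSL_stmt := by
  intro P A g B v q θ t hL ht hP
  obtain ⟨C, hC⟩ := hL.eZ t ht hP
  refine ⟨max C 0, ?_⟩
  intro Y₁ Y₂ κ hY hκ hsl
  have hPc : P.Countable := by
    rw [hP]
    exact Set.countable_range _
  have hBm : Measurable B := PSL_measB P B hPc hL.Bd
  have hqc : Continuous q := hL.qd.continuous
  have hEm : Measurable (En θ B q) := PSL_measEn θ B q hBm hqc.measurable
  have hFm : Measurable (fun z : ℂ => En θ B q (t * z)) :=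
    hEm.comp (measurable_const.mul measurable_id)
  set Y : ℝ := max |Y₁| |Y₂| + 1 with hYdef
  have hY0 : 0 < Y := by
    have : 0 ≤ max |Y₁| |Y₂| := le_trans (abs_nonneg _) (le_max_left _ _)
    linarith
  have hsub : Ioo Y₁ Y₂ ⊆ Ioo (-Y) Y := by
    intro η hη
    have h1 : |Y₁| ≤ max |Y₁| |Y₂| := le_max_left _ _
    have h2 : |Y₂| ≤ max |Y₁| |Y₂| := le_max_right _ _
    constructor
    · have := neg_abs_le Y₁
      linarith [hη.1]
    · have := le_abs_self Y₂
      linarith [hη.2]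
  -- a bound for `q`
  obtain ⟨M, hM⟩ : ∃ M : ℝ, ∀ z ∈ closedBall (0 : ℂ) (1 + Y), ‖q (t * z)‖ ≤ M := by
    have hc : ContinuousOn (fun z : ℂ => ‖q (t * z)‖) (closedBall (0 : ℂ) (1 + Y)) :=
      (hqc.comp (continuous_const.mul continuous_id)).norm.continuousOn
    obtain ⟨M, hM⟩ := (isCompact_closedBall (0 : ℂ) (1 + Y)).exists_bound_of_continuousOn hc
    exact ⟨M, fun z hz => by
      have := hM z hz
      rwa [norm_norm] at this⟩
  -- step A
  have hA : ∀ ε ∈ Ioo (0 : ℝ) (1 / 2),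
      ∫⁻ z in {z : ℂ | ε < z.re ∧ z.re < 1 - ε ∧ |z.im| < Y},
        ENNReal.ofReal (En θ B q (t * z)) ≤ ENNReal.ofReal C := by
    intro ε hε
    have hms : MeasurableSet {z : ℂ | ε < z.re ∧ z.re < 1 - ε ∧ |z.im| < Y} := by
      have h1 : IsOpen {z : ℂ | ε < z.re ∧ z.re < 1 - ε ∧ |z.im| < Y} :=
        (isOpen_lt continuous_const Complex.continuous_re).inter
          ((isOpen_lt Complex.continuous_re continuous_const).inter
            (isOpen_lt Complex.continuous_im.abs continuous_const))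
      exact h1.measurableSet
    have hss : {z : ℂ | ε < z.re ∧ z.re < 1 - ε ∧ |z.im| < Y} ⊆ closedBall (0 : ℂ) (1 + Y) := by
      intro z hz
      rw [mem_closedBall_zero_iff]
      have h1 := Complex.norm_le_abs_re_add_abs_im z
      have h2 : |z.re| ≤ 1 := by
        rw [abs_le]
        constructor
        · linarith [hz.1, hε.1]
        · linarith [hz.2.1, hε.1]
      linarith [hz.2.2]
    have hint : IntegrableOn (fun z : ℂ => En θ B q (t * z))
        {z : ℂ | ε < z.re ∧ z.re < 1 - ε ∧ |z.im| < Y} volume := by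
      refine Measure.integrableOn_of_bounded (M := 2 * M) ?_ hFm.aestronglyMeasurable ?_
      · exact ne_of_lt (lt_of_le_of_lt (measure_mono hss) measure_closedBall_lt_top)
      · refine (ae_restrict_iff' hms).mpr (Filter.Eventually.of_forall (fun z hz => ?_))
        obtain ⟨h1, h2⟩ := PSL_En_bd θ hL.th B q (t * z)
        rw [Real.norm_eq_abs, abs_of_nonneg h1]
        exact h2.trans (mul_le_mul_of_nonneg_left (hM z (hss hz)) (by norm_num))
    rw [← ofReal_integral_eq_lintegral_ofReal hint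
      (Filter.Eventually.of_forall (fun z => (PSL_En_bd θ hL.th B q (t * z)).1))]
    exact ENNReal.ofReal_le_ofReal (hC Y hY0 ε hε)
  -- step B
  have hB : ∫⁻ z in {z : ℂ | 0 < z.re ∧ z.re < 1 ∧ |z.im| < Y},
      ENNReal.ofReal (En θ B q (t * z)) ≤ ENNReal.ofReal C := by
    have hU : {z : ℂ | 0 < z.re ∧ z.re < 1 ∧ |z.im| < Y} =
        ⋃ n : ℕ, {z : ℂ | 1 / ((n : ℝ) + 3) < z.re ∧ z.re < 1 - 1 / ((n : ℝ) + 3) ∧
          |z.im| < Y} := by
      ext z
      simp only [mem_iUnion, Set.mem_ofPred_eq]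
      constructor
      · rintro ⟨h1, h2, h3⟩
        have h4 : 0 < min z.re (1 - z.re) := lt_min h1 (by linarith)
        obtain ⟨n, hn⟩ := exists_nat_one_div_lt h4
        have h5 : 1 / ((n : ℝ) + 3) < min z.re (1 - z.re) := by
          refine lt_of_le_of_lt ?_ hn
          exact one_div_le_one_div_of_le (by positivity) (by linarith)
        have h6 := lt_of_lt_of_le h5 (min_le_left _ _)
        have h7 := lt_of_lt_of_le h5 (min_le_right _ _)
        exact ⟨n, h6, by linarith, h3⟩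
      · rintro ⟨n, h1, h2, h3⟩
        have h4 : 0 < 1 / ((n : ℝ) + 3) := by positivity
        exact ⟨by linarith, by linarith, h3⟩
    rw [hU, setLIntegral_iUnion_of_directed]
    · refine iSup_le (fun n => hA _ ⟨by positivity, ?_⟩)
      rw [div_lt_div_iff₀ (by positivity) (by norm_num)]
      have : (0 : ℝ) ≤ (n : ℝ) := Nat.cast_nonneg n
      linarith
    · have hmono : Monotone (fun n : ℕ => {z : ℂ | 1 / ((n : ℝ) + 3) < z.re ∧
          z.re < 1 - 1 / ((n : ℝ) + 3) ∧ |z.im| < Y}) := by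
        intro m n hmn z hz
        obtain ⟨h1, h2, h3⟩ := hz
        have h4 : 1 / ((n : ℝ) + 3) ≤ 1 / ((m : ℝ) + 3) := by
          refine one_div_le_one_div_of_le (by positivity) ?_
          have : (m : ℝ) ≤ (n : ℝ) := by exact_mod_cast hmn
          linarith
        exact ⟨by linarith, by linarith, h3⟩
      exact hmono.directed_le
  -- step C
  have hpre : (Complex.measurableEquivRealProd.symm) ⁻¹'
      {z : ℂ | 0 < z.re ∧ z.re < 1 ∧ |z.im| < Y} = (Ioo (0 : ℝ) 1) ×ˢ (Ioo (-Y) Y) := by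
    ext p
    simp only [Set.mem_preimage, Complex.measurableEquivRealProd_symm_apply, Set.mem_ofPred_eq,
      Set.mem_prod, Set.mem_Ioo, abs_lt]
    tauto
  have hC1 : ∫⁻ z in {z : ℂ | 0 < z.re ∧ z.re < 1 ∧ |z.im| < Y},
      ENNReal.ofReal (En θ B q (t * z)) =
      ∫⁻ η in Ioo (-Y) Y, ∫⁻ s in Ioo (0 : ℝ) 1,
        ENNReal.ofReal (En θ B q (t * ((s : ℂ) + (η : ℂ) * I))) := by
    have h1 := (Complex.volume_preserving_equiv_real_prod.symm).setLIntegral_comp_preimage_emb
      (Complex.measurableEquivRealProd.symm.measurableEmbedding)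
      (fun z : ℂ => ENNReal.ofReal (En θ B q (t * z)))
      {z : ℂ | 0 < z.re ∧ z.re < 1 ∧ |z.im| < Y}
    rw [← h1, hpre, Measure.volume_eq_prod, ← Measure.prod_restrict]
    have hm : Measurable (fun p : ℝ × ℝ => ENNReal.ofReal
        (En θ B q (t * (Complex.measurableEquivRealProd.symm p)))) :=
      (hFm.comp Complex.measurableEquivRealProd.symm.measurable).ennreal_ofReal
    rw [lintegral_prod_symm' _ hm]
    refine lintegral_congr (fun η => lintegral_congr (fun s => ?_))
    have h2 : (Complex.measurableEquivRealProd.symm (s, η) : ℂ) = (s : ℂ) + (η : ℂ) * I := by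
      rw [Complex.measurableEquivRealProd_symm_apply]
      apply Complex.ext
      · simp
      · simp
    rw [h2]
  -- step D
  have hD : ∀ η ∈ Ioo Y₁ Y₂, ENNReal.ofReal κ ≤ ∫⁻ s in Ioo (0 : ℝ) 1,
      ENNReal.ofReal (En θ B q (t * ((s : ℂ) + (η : ℂ) * I))) := by
    intro η hη
    have h1 := hsl η hη
    rw [intervalIntegral.integral_of_le zero_le_one, integral_Ioc_eq_integral_Ioo] at h1
    by_cases hi : Integrable (fun s : ℝ => En θ B q (t * ((s : ℂ) + (η : ℂ) * I)))
        (volume.restrict (Ioo (0 : ℝ) 1))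
    · rw [← ofReal_integral_eq_lintegral_ofReal hi
        (Filter.Eventually.of_forall (fun s => (PSL_En_bd θ hL.th B q _).1))]
      exact ENNReal.ofReal_le_ofReal h1
    · rw [integral_undef hi] at h1
      have h2 : κ = 0 := le_antisymm h1 hκ
      rw [h2, ENNReal.ofReal_zero]
      exact bot_le
  have hE : ENNReal.ofReal (κ * (Y₂ - Y₁)) ≤ ENNReal.ofReal C := by
    calc ENNReal.ofReal (κ * (Y₂ - Y₁)) = ENNReal.ofReal κ * volume (Ioo Y₁ Y₂) := by
          rw [Real.volume_Ioo, ENNReal.ofReal_mul hκ]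
      _ = ∫⁻ _η in Ioo Y₁ Y₂, ENNReal.ofReal κ := by
          rw [setLIntegral_const]
      _ ≤ ∫⁻ η in Ioo Y₁ Y₂, ∫⁻ s in Ioo (0 : ℝ) 1,
            ENNReal.ofReal (En θ B q (t * ((s : ℂ) + (η : ℂ) * I))) :=
          setLIntegral_mono' measurableSet_Ioo hD
      _ ≤ ∫⁻ η in Ioo (-Y) Y, ∫⁻ s in Ioo (0 : ℝ) 1,
            ENNReal.ofReal (En θ B q (t * ((s : ℂ) + (η : ℂ) * I))) :=
          lintegral_mono_set hsub
      _ = _ := hC1.symm
      _ ≤ _ := hB
  exact (ENNReal.ofReal_le_ofReal_iff (le_max_right C 0)).mp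
    (hE.trans (ENNReal.ofReal_le_ofReal (le_max_left C 0)))

end V3
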